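import Mathlib

/-!
# The 2-adic valuation of the coefficients of the 17-th power of the Thue-Morse product

With `F(x) = ∏ (1 - x^(2^i))` and `F^17 = ∑ t_17(n) x^n` one has `ν₂(t_17(16·31)) = 18` and
`ν₂(t_17(16·31 + 8)) = 19`.  So for `k = 4` the valuation `ν₂(t_{2^k+1}(2^k n + j))` is not
determined by `ν₂(n + 1)`.  The two coefficients are computed from
`F_{N+1}^m = (1 - x)^m F_N^m(x^2)`, following a window of 18 consecutive coefficients.
-/

set_option autoImplicit false

namespace Pool.Agent.Results.MP_1a5b88_nt.NotDetermined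

open Finset Polynomial

/-- `t m n` is the coefficient of `x^n` in `∏_{i ≥ 0} (1 - x^(2^i))^m`.  The factors with `i > n`
do not contribute to this coefficient (as `2^i > n`), so the product may be cut at `i ≤ n`. -/
noncomputable def t (m n : ℕ) : ℤ := (∏ i ∈ range (n + 1), (1 - (X : ℤ[X]) ^ (2 ^ i)) ^ m).coeff n

/-- the partial products -/
noncomputable def G (m N : ℕ) : ℤ[X] := ∏ i ∈ range N, (1 - (X : ℤ[X]) ^ (2 ^ i)) ^ m

theorem G_succ (m N : ℕ) : G m (N + 1) = (1 - X) ^ m * expand ℤ 2 (G m N) := by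
  unfold G
  rw [prod_range_succ', mul_comm]
  congr 1
  · simp
  · rw [map_prod]
    refine prod_congr rfl fun i _ => ?_
    simp only [map_pow, map_sub, map_one, expand_X]
    rw [← pow_mul, pow_succ, mul_comm 2]

theorem G_succ' (m N : ℕ) : G m (N + 1) = G m N * (1 - (X : ℤ[X]) ^ (2 ^ N)) ^ m := by
  unfold G
  rw [prod_range_succ]

/-- coefficients with an integer index -/
noncomputable def c (m N : ℕ) (z : ℤ) : ℤ := if z < 0 then 0 else (G m N).coeff z.toNat

theorem coeff_stable {m N n : ℕ} (h : n < 2 ^ N) : (G m (N + 1)).coeff n = (G m N).coeff n := by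
  rw [G_succ']
  obtain ⟨Q, hQ⟩ : ∃ Q : ℤ[X], (1 - (X : ℤ[X]) ^ (2 ^ N)) ^ m = 1 + X ^ (2 ^ N) * Q := by
    have h1 : (X : ℤ[X]) ^ (2 ^ N) ∣ (1 - (X : ℤ[X]) ^ (2 ^ N)) ^ m - 1 := by
      have := sub_dvd_pow_sub_pow (1 - (X : ℤ[X]) ^ (2 ^ N)) 1 m
      rw [one_pow] at this
      refine dvd_trans ⟨-1, by ring⟩ this
    obtain ⟨Q, hQ⟩ := h1
    exact ⟨Q, by linear_combination hQ⟩
  rw [hQ, mul_add, mul_one, coeff_add]
  have : (G m N * (X ^ (2 ^ N) * Q)).coeff n = 0 := by
    rw [show G m N * (X ^ (2 ^ N) * Q) = (G m N * Q) * X ^ (2 ^ N) by ring, coeff_mul_X_pow']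
    rw [if_neg (by omega)]
  rw [this, add_zero]

theorem coeff_stable' {m N n : ℕ} (h : n < 2 ^ N) (M : ℕ) :
    (G m (N + M)).coeff n = (G m N).coeff n := by
  induction M with
  | zero => rfl
  | succ M ih =>
    rw [← add_assoc, coeff_stable (lt_of_lt_of_le h (Nat.pow_le_pow_right (by norm_num) (by omega))),
      ih]

theorem t_eq {m N n : ℕ} (h : n < 2 ^ N) : t m n = c m N n := by
  have h2 : n < 2 ^ (n + 1) := lt_of_lt_of_le (Nat.lt_two_pow_self) (Nat.pow_le_pow_right (by norm_num) (by omega))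
  have e1 : t m n = (G m (n + 1)).coeff n := rfl
  have e2 : c m N n = (G m N).coeff n := by
    unfold c
    rw [if_neg (by omega)]
    simp
  rw [e1, e2]
  rcases le_total N (n + 1) with hle | hle
  · obtain ⟨M, hM⟩ := Nat.exists_eq_add_of_le hle
    rw [hM, coeff_stable' h]
  · obtain ⟨M, hM⟩ := Nat.exists_eq_add_of_le hle
    rw [hM, coeff_stable' h2]

theorem one_sub_X_pow (m : ℕ) :
    (1 - X : ℤ[X]) ^ m = ∑ j ∈ range (m + 1), C ((-1) ^ j * (m.choose j : ℤ)) * X ^ j := by
  rw [sub_eq_add_neg, add_comm, add_pow]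
  refine sum_congr rfl fun j _ => ?_
  rw [neg_pow]
  simp
  ring

theorem c_succ (m N : ℕ) (z : ℤ) :
    c m (N + 1) z = ∑ j ∈ range (m + 1), (-1) ^ j * (m.choose j : ℤ) *
      (if (z - j) % 2 = 0 then c m N ((z - j) / 2) else 0) := by
  unfold c
  split_ifs with hz
  · symm
    refine sum_eq_zero fun j _ => ?_
    have : (z - j) / 2 < 0 := by omega
    rw [if_pos this]
    simp
  · obtain ⟨n, rfl⟩ := Int.eq_ofNat_of_zero_le (not_lt.mp hz)
    simp only [Int.toNat_natCast]
    rw [G_succ, one_sub_X_pow, sum_mul, finsetSum_coeff]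
    refine sum_congr rfl fun j _ => ?_
    rw [mul_assoc, coeff_C_mul, coeff_X_pow_mul']
    congr 1
    by_cases hj : j ≤ n
    · rw [if_pos hj, coeff_expand (by norm_num)]
      by_cases h2 : 2 ∣ n - j
      · rw [if_pos h2, if_pos (by omega), if_neg (by omega)]
        congr 1
        omega
      · rw [if_neg h2, if_neg (by omega)]
    · rw [if_neg hj]
      split_ifs with h1 h2
      · rfl
      · exfalso; omega
      · rfl

/-- a table of the signed binomial coefficients `(-1)^j C(17,j)` -/
def bt (j : ℕ) : ℤ := if j ≤ 17 then (-1) ^ j * ((17 : ℕ).choose j : ℤ) else 0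

/-- one step of the window recursion -/
def step (b : ℕ) (v : List ℤ) : List ℤ :=
  (List.range 18).map fun i => ((List.range 18).map fun l =>
    (if i ≤ 2 * l + b then bt (2 * l + b - i) else 0) * v.getD l 0).sum

/-- the window of 18 coefficients ending at `z` -/
noncomputable def w (N : ℕ) (z : ℤ) : List ℤ :=
  (List.range 18).map fun i : ℕ => c 17 N (z - (i : ℤ))

theorem w_getD (N : ℕ) (z : ℤ) (l : ℕ) (hl : l < 18) : (w N z).getD l 0 = c 17 N (z - l) := by
  unfold w
  rw [List.getD_eq_getElem _ _ (by simpa using hl)]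
  simp

theorem w_step (N b : ℕ) (hb : b < 2) (z : ℤ) : w (N + 1) (2 * z + b) = step b (w N z) := by
  unfold step
  rw [w]
  refine List.map_congr_left fun i hi => ?_
  have hi : i < 18 := by simpa using hi
  rw [c_succ]
  have e : ((List.range 18).map fun l =>
      (if i ≤ 2 * l + b then bt (2 * l + b - i) else 0) * (w N z).getD l 0).sum =
      ∑ l ∈ range 18, (if i ≤ 2 * l + b then bt (2 * l + b - i) else 0) * c 17 N (z - l) := by
    rw [Finset.sum_range, ← List.sum_ofFn]
    congr 1
  rw [e]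
  -- both sums over the pairs with `i + j = 2 l + b`
  have key : ∀ j : ℕ, j ∈ range (17 + 1) → (-1 : ℤ) ^ j * ((17 : ℕ).choose j : ℤ) *
      (if (2 * z + b - i - j) % 2 = 0 then c 17 N ((2 * z + b - i - j) / 2) else 0) =
      ∑ l ∈ range 18, if i + j = 2 * l + b then bt j * c 17 N (z - l) else 0 := by
    intro j hj
    have hj : j < 18 := by simpa using hj
    have hbt : bt j = (-1 : ℤ) ^ j * ((17 : ℕ).choose j : ℤ) := by
      unfold bt; rw [if_pos (by omega)]
    split_ifs with h
    · by_cases hb0 : b ≤ i + j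
      · have hl : (i + j - b) / 2 < 18 := by omega
        rw [sum_eq_single ((i + j - b) / 2)]
        · rw [if_pos (by omega), hbt]
          congr 2
          omega
        · intro l _ hne
          rw [if_neg (by omega)]
        · intro h'; simp at h'; omega
      · exfalso; omega
    · rw [mul_zero]
      symm
      refine sum_eq_zero fun l _ => ?_
      rw [if_neg (by omega)]
  rw [sum_congr rfl key, sum_comm]
  refine sum_congr rfl fun l hl => ?_
  have hl : l < 18 := by simpa using hl
  split_ifs with h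
  · by_cases h17 : 2 * l + b - i < 18
    · rw [sum_eq_single (2 * l + b - i)]
      · rw [if_pos (by omega)]
      · intro j _ hne
        rw [if_neg (by omega)]
      · intro h'; simp at h'; omega
    · have : bt (2 * l + b - i) = 0 := by unfold bt; rw [if_neg (by omega)]
      rw [this, zero_mul]
      refine sum_eq_zero fun j hj => ?_
      have hj : j < 18 := by simpa using hj
      rw [if_neg (by omega)]
  · rw [zero_mul]
    refine sum_eq_zero fun j _ => ?_
    rw [if_neg (by omega)]

theorem w_zero : w 0 0 = 1 :: List.replicate 17 0 := by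
  unfold w c G
  simp [List.range_succ]

theorem w_504 : (w 9 504) = step 0 (step 0 (step 0 (step 1 (step 1 (step 1 (step 1 (step 1 (step 1
    (1 :: List.replicate 17 0))))))))) := by
  have h1 := w_step 0 1 (by norm_num) 0
  have h2 := w_step 1 1 (by norm_num) 1
  have h3 := w_step 2 1 (by norm_num) 3
  have h4 := w_step 3 1 (by norm_num) 7
  have h5 := w_step 4 1 (by norm_num) 15
  have h6 := w_step 5 1 (by norm_num) 31
  have h7 := w_step 6 0 (by norm_num) 63
  have h8 := w_step 7 0 (by norm_num) 126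
  have h9 := w_step 8 0 (by norm_num) 252
  norm_num at h1 h2 h3 h4 h5 h6 h7 h8 h9
  rw [h9, h8, h7, h6, h5, h4, h3, h2, h1, w_zero]

theorem comp :
    (step 0 (step 0 (step 0 (step 1 (step 1 (step 1 (step 1 (step 1 (step 1
      (1 :: List.replicate 17 0)))))))))).getD 0 0 = -98392455150140920430592 ∧
    (step 0 (step 0 (step 0 (step 1 (step 1 (step 1 (step 1 (step 1 (step 1
      (1 :: List.replicate 17 0)))))))))).getD 8 0 = 405038508762146334834688 := by
  decide +kernel

theorem t_504 : t 17 504 = -98392455150140920430592 := by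
  rw [t_eq (N := 9) (by norm_num)]
  have := w_getD 9 504 0 (by norm_num)
  rw [w_504, comp.1] at this
  rw [show ((504 : ℕ) : ℤ) = 504 - ((0 : ℕ) : ℤ) by norm_num]
  exact this.symm

theorem t_496 : t 17 496 = 405038508762146334834688 := by
  rw [t_eq (N := 9) (by norm_num)]
  have := w_getD 9 504 8 (by norm_num)
  rw [w_504, comp.2] at this
  rw [show ((496 : ℕ) : ℤ) = 504 - ((8 : ℕ) : ℤ) by norm_num]
  exact this.symm

/-- Q1 is false: it fails for `k = 4`. -/
theorem result : ¬ ∀ k : ℕ, 2 ≤ k → ∃ A : ℕ → ℕ, StrictMono A ∧ A 0 = 0 ∧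
    ∀ n j : ℕ, j < 2 ^ k →
      emultiplicity (2 : ℤ) (t (2 ^ k + 1) (2 ^ k * n + j)) = (A (padicValNat 2 (n + 1)) : ℕ∞) := by
  intro H
  obtain ⟨A, -, -, hA⟩ := H 4 (by norm_num)
  have h1 := hA 31 0 (by norm_num)
  have h2 := hA 31 8 (by norm_num)
  rw [← h2] at h1
  norm_num at h1
  rw [t_496, t_504] at h1
  have e1 : emultiplicity (2 : ℤ) 405038508762146334834688 = (18 : ℕ) := by
    rw [emultiplicity_eq_coe]; norm_num
  have e2 : emultiplicity (2 : ℤ) (-98392455150140920430592) = (19 : ℕ) := by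
    rw [emultiplicity_eq_coe]; norm_num
  rw [e1, e2] at h1
  exact absurd h1 (by norm_num)

end Pool.Agent.Results.MP_1a5b88_nt.NotDetermined
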